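import Pool.Agent.H56.BN.Poly

/-!
# No finite Boolean combination of polynomial inequalities, congruences and valuations of
integer polynomials (MP_3a77f1_co)

The instances are `ext m' (line w t)`, where `line w t = (t - w, t - 1, t, t + 1)` and `ext` adds
letters with the total demand of the letters before. All entries are linear forms in `w` and `t`.
Let `F` be a finite set of integer polynomials. We choose integers `w₀ ≡ 1 mod m!` and `t₀` such that
every `f ∈ F` which does not vanish identically on the family is nonzero at `(w₀, t₀)`, and then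
`w ≡ w₀`, `t ≡ t₀` modulo a high power of `m!`.
-/

set_option autoImplicit false

namespace Pool.Agent.H88.BQ

open Pool.Agent.H78.BN Pool.Agent.H56.BN

/-! ### The coordinates over a commutative ring -/

/-- the entries of `ext m' (line w t)` over any commutative ring -/
def crd {R : Type*} [CommRing R] (w t : R) : (m : ℕ) → Fin (4 + m) → R
  | 0 => ![t - w, t - 1, t, t + 1]
  | m + 1 => Fin.cons (∑ i, crd w t m i) (crd w t m)

lemma crd_map {R S : Type*} [CommRing R] [CommRing S] (φ : R →+* S) (w t : R) (m : ℕ) :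
    ∀ i, φ (crd w t m i) = crd (φ w) (φ t) m i := by
  induction m with
  | zero =>
    intro i
    unfold crd
    fin_cases i
    · show φ (t - w) = φ t - φ w
      exact map_sub _ _ _
    · show φ (t - 1) = φ t - 1
      rw [map_sub, map_one]
    · rfl
    · show φ (t + 1) = φ t + 1
      rw [map_add, map_one]
  | succ m ih =>
    intro i
    unfold crd
    refine Fin.cases ?_ (fun j => ?_) i
    · rw [Fin.cons_zero, Fin.cons_zero, map_sum]
      exact Finset.sum_congr rfl (fun i _ => ih i)
    · rw [Fin.cons_succ, Fin.cons_succ]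
      exact ih j

lemma crd_nat {w t : ℕ} (hw : w < t) (m : ℕ) :
    ∀ i, crd (w : ℤ) (t : ℤ) m i = (ext m (line w t) i : ℤ) := by
  induction m with
  | zero =>
    intro i
    unfold crd ext line
    fin_cases i
    · show (t : ℤ) - w = ((t - w : ℕ) : ℤ)
      omega
    · show (t : ℤ) - 1 = ((t - 1 : ℕ) : ℤ)
      omega
    · rfl
    · show (t : ℤ) + 1 = ((t + 1 : ℕ) : ℤ)
      omega
  | succ m ih =>
    intro i
    unfold crd ext
    refine Fin.cases ?_ (fun j => ?_) i
    · rw [Fin.cons_zero, Fin.cons_zero]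
      unfold total
      push_cast
      exact Finset.sum_congr rfl (fun i _ => ih i)
    · rw [Fin.cons_succ, Fin.cons_succ]
      exact ih j

lemma crd_modEq {N w t w' t' : ℤ} (hw : w ≡ w' [ZMOD N]) (ht : t ≡ t' [ZMOD N]) (n : ℕ) :
    ∀ i, crd w t n i ≡ crd w' t' n i [ZMOD N] := by
  induction n with
  | zero =>
    intro i
    unfold crd
    fin_cases i
    · exact ht.sub hw
    · exact ht.sub_right 1
    · exact ht
    · exact ht.add_right 1
  | succ n ih =>
    intro i
    unfold crd
    refine Fin.cases ?_ (fun j => ?_) i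
    · rw [Fin.cons_zero, Fin.cons_zero]
      exact Int.ModEq.sum (fun i _ => ih i)
    · rw [Fin.cons_succ, Fin.cons_succ]
      exact ih j

/-- the value of an integer polynomial modulo `N` depends only on the point modulo `N` -/
lemma eval_modEq {ι : Type*} {N : ℤ} {x y : ι → ℤ} (h : ∀ i, x i ≡ y i [ZMOD N])
    (f : MvPolynomial ι ℤ) : MvPolynomial.eval x f ≡ MvPolynomial.eval y f [ZMOD N] := by
  induction f using MvPolynomial.induction_on with
  | C a => rw [MvPolynomial.eval_C, MvPolynomial.eval_C]
  | add p q hp hq => rw [map_add, map_add]; exact hp.add hq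
  | mul_X p i hp =>
    rw [map_mul, map_mul, MvPolynomial.eval_X, MvPolynomial.eval_X]
    exact hp.mul (h i)

/-- A point `(1 + M u, t)` of the family at which no polynomial of `F` vanishes, except those
which vanish at all such points. -/
lemma pick (M : ℤ) (n : ℕ) (F : Finset (MvPolynomial (Fin (4 + n)) ℤ)) :
    ∃ u₀ t₀ : ℤ, ∀ f ∈ F, MvPolynomial.eval (crd (1 + M * u₀) t₀ n) f ≠ 0 ∨
      ∀ u t : ℤ, MvPolynomial.eval (crd (1 + M * u) t n) f = 0 := by
  classical
  let W : MvPolynomial (Fin 2) ℤ := 1 + MvPolynomial.C M * MvPolynomial.X 0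
  let T : MvPolynomial (Fin 2) ℤ := MvPolynomial.X 1
  let fh : MvPolynomial (Fin (4 + n)) ℤ → MvPolynomial (Fin 2) ℤ := fun f =>
    MvPolynomial.aeval (crd W T n) f
  have hev : ∀ (x : Fin 2 → ℤ) (f : MvPolynomial (Fin (4 + n)) ℤ),
      MvPolynomial.eval x (fh f) = MvPolynomial.eval (crd (1 + M * x 0) (x 1) n) f := by
    intro x f
    have hc : crd (1 + M * x 0) (x 1) n = fun i => MvPolynomial.eval x (crd W T n i) := by
      funext i
      rw [crd_map (MvPolynomial.eval x) W T n i]
      simp [W, T]
    rw [hc]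
    show MvPolynomial.eval x (MvPolynomial.aeval (crd W T n) f) = _
    induction f using MvPolynomial.induction_on with
    | C a => simp
    | add p q hp hq => rw [map_add, map_add, hp, hq, map_add]
    | mul_X p i hp => rw [map_mul, map_mul, hp, map_mul]; simp
  let Q : MvPolynomial (Fin 2) ℤ := ∏ f ∈ F.filter (fun f => fh f ≠ 0), fh f
  have hQ : Q ≠ 0 := Finset.prod_ne_zero_iff.mpr (fun f hf => (Finset.mem_filter.mp hf).2)
  obtain ⟨x, hx⟩ : ∃ x, MvPolynomial.eval x Q ≠ 0 := by
    by_contra hcon
    push Not at hcon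
    exact hQ (MvPolynomial.funext (fun x => by rw [hcon x, map_zero]))
  refine ⟨x 0, x 1, fun f hf => ?_⟩
  by_cases h0 : fh f = 0
  · right
    intro u t
    have := hev ![u, t] f
    rw [h0, map_zero] at this
    simpa using this.symm
  · left
    rw [← hev x f]
    intro h
    apply hx
    show MvPolynomial.eval x (∏ f ∈ F.filter (fun f => fh f ≠ 0), fh f) = 0
    rw [map_prod]
    exact Finset.prod_eq_zero (Finset.mem_filter.mpr ⟨hf, h0⟩) h

/-- close numbers have the same valuation -/
lemma val_close {p : ℕ} (hp : p.Prime) {x y : ℤ} {e : ℕ} (hy : y ≠ 0)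
    (he : 1 ≤ e) (h : x ≡ y [ZMOD (p : ℤ) ^ (padicValInt p y + e)]) :
    padicValInt p x = padicValInt p y := by
  have : Fact p.Prime := ⟨hp⟩
  set v := padicValInt p y with hv
  have hyv : (p : ℤ) ^ v ∣ y := by rw [padicValInt_dvd_iff]; right; exact le_rfl
  have hyv' : ¬ (p : ℤ) ^ (v + 1) ∣ y := by
    rw [padicValInt_dvd_iff]
    rintro (h | h)
    · exact hy h
    · omega
  have h1 : (p : ℤ) ^ (v + 1) ∣ y - x :=
    dvd_trans (pow_dvd_pow _ (by omega)) h.dvd
  have h2 : (p : ℤ) ^ v ∣ y - x := dvd_trans (pow_dvd_pow _ (by omega)) h1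
  have hxv : (p : ℤ) ^ v ∣ x := by
    have := dvd_sub hyv h2
    simpa using this
  have hxv' : ¬ (p : ℤ) ^ (v + 1) ∣ x := by
    intro h3
    apply hyv'
    have := dvd_add h3 h1
    simpa using this
  have hx0 : x ≠ 0 := by
    rintro rfl
    exact hxv' (dvd_zero _)
  rw [padicValInt_dvd_iff] at hxv hxv'
  rcases hxv with h | h
  · exact absurd h hx0
  · have h4 : ¬ (v + 1 ≤ padicValInt p x) := fun h5 => hxv' (Or.inr h5)
    omega

end Pool.Agent.H88.BQ
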