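import Pool.Agent.H88.BQ.Main
import Pool.Agent.H32.BM.Doubling

/-!
# The strong form of the clause `no formula`
-/

set_option autoImplicit false

namespace Pool.Agent.H88.BQ

open Pool.Agent.H78.BN

/-- For `n ≥ 4` the signs of finitely many polynomials, the residues of the `d_i` modulo `1, …, m`
and, for finitely many integer polynomials `f` and the primes `p ≤ m`, the valuation
`v = v_p(f(d))` and the residue of `f(d)` modulo `p ^ (v + m)` do not decide whether
`B*(d) < 3/4`, even for instances with `gcd = 1`. -/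
theorem no_formula_strong (n : ℕ) (hn : 4 ≤ n) (m : ℕ)
    (P : Finset (MvPolynomial (Fin n) ℝ)) (F : Finset (MvPolynomial (Fin n) ℤ)) :
    ∃ d d' : Fin n → ℕ, (∀ i, 0 < d i) ∧ (∀ i, 0 < d' i) ∧
      Finset.univ.gcd d = 1 ∧ Finset.univ.gcd d' = 1 ∧
      (∀ p ∈ P, SignType.sign (MvPolynomial.eval (fun i => (d i : ℝ)) p)
        = SignType.sign (MvPolynomial.eval (fun i => (d' i : ℝ)) p)) ∧
      (∀ k, 1 ≤ k → k ≤ m → ∀ i, d i ≡ d' i [MOD k]) ∧
      (∀ f ∈ F, SignType.sign (MvPolynomial.eval (fun i => (d i : ℤ)) f)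
          = SignType.sign (MvPolynomial.eval (fun i => (d' i : ℤ)) f) ∧
        ∀ p, p.Prime → p ≤ m →
          padicValInt p (MvPolynomial.eval (fun i => (d i : ℤ)) f)
            = padicValInt p (MvPolynomial.eval (fun i => (d' i : ℤ)) f) ∧
          MvPolynomial.eval (fun i => (d i : ℤ)) f ≡ MvPolynomial.eval (fun i => (d' i : ℤ)) f
            [ZMOD (p : ℤ) ^ (padicValInt p (MvPolynomial.eval (fun i => (d i : ℤ)) f) + m)]) ∧
      Bstar d < 3 / 4 ∧ ¬ Bstar d' < 3 / 4 := by
  have hdbl : Pool.Agent.H56.BN.Doubling := fun _ d hD => Pool.Agent.H32.BM.doubling d hD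
  obtain ⟨m', rfl⟩ : ∃ m', n = 4 + m' := ⟨n - 4, by omega⟩
  exact arith_aux hdbl m' m P F

end Pool.Agent.H88.BQ
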