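import Pool.Agent.H88.BQ.Arith

/-!
# The theorem: signs of polynomials, residues and valuations do not decide `B*(d) < 3/4`
-/

set_option autoImplicit false

namespace Pool.Agent.H88.BQ

open Pool.Agent.H78.BN Pool.Agent.H56.BN

lemma ext_entry (m : ℕ) (d : Fin 4 → ℕ) (i : Fin 4) : ∃ j, ext m d j = d i := by
  induction m with
  | zero => exact ⟨i, rfl⟩
  | succ m ih =>
    obtain ⟨j, hj⟩ := ih
    refine ⟨Fin.succ j, ?_⟩
    unfold ext
    rw [Fin.cons_succ]
    exact hj

lemma gcd_ext_line (m w t : ℕ) : Finset.univ.gcd (ext m (line w t)) = 1 := by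
  obtain ⟨j, hj⟩ := ext_entry m (line w t) 2
  obtain ⟨j', hj'⟩ := ext_entry m (line w t) 3
  have h1 : Finset.univ.gcd (ext m (line w t)) ∣ t := by
    have := Finset.gcd_dvd (f := ext m (line w t)) (Finset.mem_univ j)
    rw [hj] at this
    exact this
  have h2 : Finset.univ.gcd (ext m (line w t)) ∣ t + 1 := by
    have := Finset.gcd_dvd (f := ext m (line w t)) (Finset.mem_univ j')
    rw [hj'] at this
    exact this
  exact Nat.dvd_one.mp ((Nat.dvd_add_right h1).mp h2)

lemma sign_cast (z : ℤ) : SignType.sign (z : ℝ) = SignType.sign z := by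
  rcases lt_trichotomy z 0 with h | h | h
  · rw [sign_neg h, sign_neg (by exact_mod_cast h)]
  · subst h; simp
  · rw [sign_pos h, sign_pos (by exact_mod_cast h)]

lemma eval_cast {n : ℕ} (x : Fin n → ℕ) (f : MvPolynomial (Fin n) ℤ) :
    MvPolynomial.eval (fun i => (x i : ℝ)) (MvPolynomial.map (Int.castRingHom ℝ) f) =
      ((MvPolynomial.eval (fun i => (x i : ℤ)) f : ℤ) : ℝ) := by
  induction f using MvPolynomial.induction_on with
  | C a => simp
  | add p q hp hq => rw [map_add, map_add, hp, hq, map_add]; push_cast; rfl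
  | mul_X p i hp => rw [map_mul, map_mul, hp, map_mul]; simp

lemma toNat_emod {a : ℤ} {N : ℕ} (hN : 0 < N) :
    ((a % (N : ℤ)).toNat : ℤ) ≡ a [ZMOD (N : ℤ)] ∧ (a % (N : ℤ)).toNat < N := by
  have h1 : 0 ≤ a % (N : ℤ) := Int.emod_nonneg _ (by omega)
  have h2 : a % (N : ℤ) < N := Int.emod_lt_of_pos _ (by omega)
  constructor
  · rw [Int.toNat_of_nonneg h1]
    exact Int.mod_modEq a N
  · omega

theorem arith_aux (hdbl : Doubling) (m' m : ℕ)
    (P : Finset (MvPolynomial (Fin (4 + m')) ℝ)) (F : Finset (MvPolynomial (Fin (4 + m')) ℤ)) :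
    ∃ d d' : Fin (4 + m') → ℕ, (∀ i, 0 < d i) ∧ (∀ i, 0 < d' i) ∧
      Finset.univ.gcd d = 1 ∧ Finset.univ.gcd d' = 1 ∧
      (∀ p ∈ P, SignType.sign (MvPolynomial.eval (fun i => (d i : ℝ)) p)
        = SignType.sign (MvPolynomial.eval (fun i => (d' i : ℝ)) p)) ∧
      (∀ k, 1 ≤ k → k ≤ m → ∀ i, d i ≡ d' i [MOD k]) ∧
      (∀ f ∈ F, SignType.sign (MvPolynomial.eval (fun i => (d i : ℤ)) f)
          = SignType.sign (MvPolynomial.eval (fun i => (d' i : ℤ)) f) ∧
        ∀ p, p.Prime → p ≤ m →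
          padicValInt p (MvPolynomial.eval (fun i => (d i : ℤ)) f)
            = padicValInt p (MvPolynomial.eval (fun i => (d' i : ℤ)) f) ∧
          MvPolynomial.eval (fun i => (d i : ℤ)) f ≡ MvPolynomial.eval (fun i => (d' i : ℤ)) f
            [ZMOD (p : ℤ) ^ (padicValInt p (MvPolynomial.eval (fun i => (d i : ℤ)) f) + m)]) ∧
      Bstar d < 3 / 4 ∧ ¬ Bstar d' < 3 / 4 := by
  classical
  obtain ⟨u₀, t₀, hpick⟩ := pick (m.factorial : ℤ) m' F
  set w₀ : ℤ := 1 + (m.factorial : ℤ) * u₀ with hw₀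
  let f0 : MvPolynomial (Fin (4 + m')) ℤ → ℤ := fun f => MvPolynomial.eval (crd w₀ t₀ m') f
  set E : ℕ := m + 1 + ∑ f ∈ F, (f0 f).natAbs with hE
  set N : ℕ := m.factorial ^ E with hN
  have hNpos : 0 < N := Nat.pow_pos (Nat.factorial_pos m)
  have hMN : m.factorial ∣ N := dvd_pow_self _ (by omega)
  -- the multiplier
  have hcop : IsCoprime w₀ (N : ℤ) := by
    rw [hN]
    push_cast
    apply IsCoprime.pow_right
    refine ⟨1, -u₀, ?_⟩
    rw [hw₀]; ring
  obtain ⟨a, b', hab⟩ := hcop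
  set β : ℤ := t₀ * a with hβ
  have hβw : β * w₀ ≡ t₀ [ZMOD (N : ℤ)] := by
    have h1 : β * w₀ = t₀ + (N : ℤ) * (-(t₀ * b')) := by
      rw [hβ]; linear_combination t₀ * hab
    rw [h1]
    exact Int.modEq_add_fac_self
  obtain ⟨hb1, hb2⟩ := toNat_emod (a := β - 1) hNpos
  set b₀ : ℕ := ((β - 1) % (N : ℤ)).toNat + 2 * N with hb₀
  let b : ℕ → ℕ := fun k => b₀ + N * k
  have hbN : ∀ k, (b k : ℤ) + 1 ≡ β [ZMOD (N : ℤ)] := by
    intro k
    have h1 : ((b k : ℕ) : ℤ) + 1 = (((β - 1) % (N : ℤ)).toNat : ℤ) + 1 + (N : ℤ) * (2 + k) := by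
      show ((b₀ + N * k : ℕ) : ℤ) + 1 = _
      rw [hb₀]; push_cast; ring
    rw [h1]
    have h2 : (((β - 1) % (N : ℤ)).toNat : ℤ) + 1 ≡ β - 1 + 1 [ZMOD (N : ℤ)] := hb1.add_right 1
    have h3 : β - 1 + 1 = β := by ring
    rw [h3] at h2
    exact Int.modEq_add_fac_self.trans h2
  have hb : ∀ k, 2 ≤ b k := by
    intro k
    show 2 ≤ b₀ + N * k
    omega
  have hbs : ∀ k, b k + 1 ≤ b (k + 1) := by
    intro k
    show b₀ + N * k + 1 ≤ b₀ + N * (k + 1)
    nlinarith
  have hbmono : Monotone b := monotone_nat_of_le_succ fun k => by have := hbs k; omega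
  -- the polynomials
  let P' : Finset (MvPolynomial (Fin (4 + m')) ℝ) :=
    P ∪ F.image (MvPolynomial.map (Int.castRingHom ℝ))
  set K := ∑ p ∈ P', p.totalDegree with hK
  -- the width
  obtain ⟨hw1, hw2⟩ := toNat_emod (a := w₀) hNpos
  set w : ℕ := (w₀ % (N : ℤ)).toNat + N * (4 * N + 16 * b K + 20) with hw
  have hwN : (w : ℤ) ≡ w₀ [ZMOD (N : ℤ)] := by
    have h1 : (w : ℤ) = ((w₀ % (N : ℤ)).toNat : ℤ) + (N : ℤ) * (4 * N + 16 * b K + 20) := by
      rw [hw]; push_cast; ring
    rw [h1]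
    exact Int.modEq_add_fac_self.trans hw1
  have hwbig : 4 * N + 16 * b K + 20 ≤ w := by
    rw [hw]
    have : 1 * (4 * N + 16 * b K + 20) ≤ N * (4 * N + 16 * b K + 20) :=
      Nat.mul_le_mul_right _ hNpos
    omega
  let r : ℕ → ℕ := fun k => ((t₀ - ((b k * w + w / 2 : ℕ) : ℤ)) % (N : ℤ)).toNat
  have hr : ∀ k, r k < N := fun k => (toNat_emod hNpos).2
  let y : ℕ → ℕ := fun k => (b k + 1) * w
  let x : ℕ → ℕ := fun k => b k * w + w / 2 + r k
  have hxN : ∀ k, (x k : ℤ) ≡ t₀ [ZMOD (N : ℤ)] := by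
    intro k
    have h1 := (toNat_emod (a := t₀ - ((b k * w + w / 2 : ℕ) : ℤ)) hNpos).1
    have h2 := h1.add_left ((b k * w + w / 2 : ℕ) : ℤ)
    have h3 : ((b k * w + w / 2 : ℕ) : ℤ) + (t₀ - ((b k * w + w / 2 : ℕ) : ℤ)) = t₀ := by ring
    rw [h3] at h2
    have h4 : (x k : ℤ) = ((b k * w + w / 2 : ℕ) : ℤ) + ((r k : ℕ) : ℤ) := by
      show ((b k * w + w / 2 + r k : ℕ) : ℤ) = _
      push_cast; ring
    rw [h4]
    exact h2
  have hyN : ∀ k, (y k : ℤ) ≡ t₀ [ZMOD (N : ℤ)] := by
    intro k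
    have h1 : (y k : ℤ) = ((b k : ℤ) + 1) * (w : ℤ) := by
      show (((b k + 1) * w : ℕ) : ℤ) = _
      push_cast; ring
    rw [h1]
    exact ((hbN k).mul hwN).trans hβw
  have hxy : ∀ k, x k ≤ y k := by
    intro k
    have h1 := hr k
    show b k * w + w / 2 + r k ≤ (b k + 1) * w
    have h2 : (b k + 1) * w = b k * w + w := by ring
    omega
  have hyx : ∀ k, y k < x (k + 1) := by
    intro k
    show (b k + 1) * w < b (k + 1) * w + w / 2 + r (k + 1)
    have := Nat.mul_le_mul_right w (hbs k)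
    omega
  have hwx : ∀ k, w < x k := by
    intro k
    show w < b k * w + w / 2 + r k
    have := Nat.mul_le_mul_right w (hb k)
    omega
  have hwy : ∀ k, w < y k := fun k => lt_of_lt_of_le (hwx k) (hxy k)
  have hw1' : 1 ≤ w := by omega
  -- the roots
  let q : MvPolynomial (Fin (4 + m')) ℝ → Polynomial ℝ := fun p =>
    MvPolynomial.aeval (lp (w:ℝ) m') p
  let R : Finset ℝ := P'.biUnion fun p => (q p).roots.toFinset
  have hR : R.card ≤ K := by
    refine le_trans Finset.card_biUnion_le ?_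
    rw [hK]
    refine Finset.sum_le_sum fun p _ => ?_
    refine le_trans (Multiset.toFinset_card_le _) ?_
    refine le_trans (Polynomial.card_roots' _) ?_
    exact aeval_lp_degree (w:ℝ) m' p
  obtain ⟨k, hkK, hk⟩ := avoid R K hR (fun k => (x k : ℝ)) (fun k => (y k : ℝ))
    (fun k => by exact_mod_cast hxy k) (fun k => by exact_mod_cast hyx k)
  have hbk : b k ≤ b K := hbmono hkK
  -- the two instances
  have hxgt : 1 < x k := by have := hwx k; omega
  have hygt : 1 < y k := by have := hwy k; omega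
  have hposx := line_pos (hwx k) hxgt
  have hposy := line_pos (hwy k) hygt
  have hgood : Good (ext m' (line w (y k))) := by
    rw [good_ext hdbl]
    exact ⟨hposy, line_good (hb k) hw1'⟩
  have hbad4 : ¬ Bstar (line w (x k)) < 3 / 4 := by
    have hrk := hr k
    refine line_bad (b := b k) (by have := hb k; omega) ?_ ?_
    · show (4 * b k + 1) * w + 16 * b k ≤ 4 * (b k * w + w / 2 + r k)
      have e1 : (4 * b k + 1) * w = 4 * (b k * w) + w := by ring
      rw [e1]
      omega
    · show 4 * (b k * w + w / 2 + r k) + 16 * b k + 8 ≤ (4 * b k + 3) * w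
      have e1 : (4 * b k + 3) * w = 4 * (b k * w) + 3 * w := by ring
      rw [e1]
      omega
  have hbad : ¬ Good (ext m' (line w (x k))) := by
    rw [good_ext hdbl]
    exact fun h => hbad4 h.2
  have hposx' : ∀ i, 0 < ext m' (line w (x k)) i := by
    have : ∀ j, ∀ i, 0 < ext j (line w (x k)) i := by
      intro j
      induction j with
      | zero => exact hposx
      | succ j ih =>
        intro i
        unfold ext
        refine Fin.cases ?_ (fun l => ?_) i
        · rw [Fin.cons_zero]; exact total_pos (by omega) ih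
        · rw [Fin.cons_succ]; exact ih l
    exact this m'
  have hsign : ∀ p ∈ P', SignType.sign (MvPolynomial.eval
      (fun i => (ext m' (line w (y k)) i : ℝ)) p) = SignType.sign (MvPolynomial.eval
      (fun i => (ext m' (line w (x k)) i : ℝ)) p) := by
    intro p hp
    rw [← aeval_lp (hwy k) m' p, ← aeval_lp (hwx k) m' p]
    symm
    apply sign_eq_of_no_root _ (by exact_mod_cast hxy k)
    intro z hz
    apply hk z
    exact Finset.mem_biUnion.mpr ⟨p, hp, Multiset.mem_toFinset.mpr hz⟩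
  -- the coordinates as integers
  have hcy : (fun i => (ext m' (line w (y k)) i : ℤ)) = crd (w : ℤ) (y k : ℤ) m' :=
    funext fun i => (crd_nat (hwy k) m' i).symm
  have hcx : (fun i => (ext m' (line w (x k)) i : ℤ)) = crd (w : ℤ) (x k : ℤ) m' :=
    funext fun i => (crd_nat (hwx k) m' i).symm
  have hiy := crd_modEq hwN (hyN k) m'
  have hix := crd_modEq hwN (hxN k) m'
  refine ⟨ext m' (line w (y k)), ext m' (line w (x k)), hgood.1, hposx', gcd_ext_line _ _ _,
    gcd_ext_line _ _ _, fun p hp => hsign p (Finset.mem_union_left _ hp), ?_, ?_, hgood.2,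
    fun h => hbad ⟨hposx', h⟩⟩
  · intro k' hk1 hk2 i
    have hdvd : (k' : ℤ) ∣ (N : ℤ) := by
      exact_mod_cast (Nat.dvd_factorial hk1 hk2).trans hMN
    rw [← Int.natCast_modEq_iff]
    have h1 : ((ext m' (line w (y k)) i : ℕ) : ℤ) = crd (w : ℤ) (y k : ℤ) m' i := congrFun hcy i
    have h2 : ((ext m' (line w (x k)) i : ℕ) : ℤ) = crd (w : ℤ) (x k : ℤ) m' i := congrFun hcx i
    rw [h1, h2]
    exact ((hiy i).trans (hix i).symm).of_dvd hdvd
  · intro f hf
    constructor
    · have h1 := hsign (MvPolynomial.map (Int.castRingHom ℝ) f)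
        (Finset.mem_union_right _ (Finset.mem_image_of_mem _ hf))
      rw [eval_cast, eval_cast, sign_cast, sign_cast] at h1
      exact h1
    · intro p hp hpm
      rw [hcy, hcx]
      have h1 := eval_modEq hiy f
      have h2 := eval_modEq hix f
      rcases hpick f hf with h0 | h0
      · have hv : padicValInt p (f0 f) ≤ (f0 f).natAbs := by
          unfold padicValInt
          exact (padicValNat_le_nat_log _).trans (Nat.log_le_self _ _)
        have hsum : (f0 f).natAbs ≤ ∑ f ∈ F, (f0 f).natAbs :=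
          Finset.single_le_sum (f := fun f => (f0 f).natAbs) (fun _ _ => Nat.zero_le _) hf
        have hdvd : (p : ℤ) ^ (padicValInt p (f0 f) + m) ∣ (N : ℤ) := by
          rw [hN]
          push_cast
          have h3 : (p : ℤ) ∣ (m.factorial : ℤ) := by
            exact_mod_cast Nat.dvd_factorial hp.pos hpm
          exact (pow_dvd_pow _ (by omega)).trans (pow_dvd_pow_of_dvd h3 _)
        have hm1 : 1 ≤ m := hp.one_lt.le.trans hpm
        have h3 := h1.of_dvd hdvd
        have h4 := h2.of_dvd hdvd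
        have h5 := val_close hp h0 hm1 h3
        have h6 := val_close hp h0 hm1 h4
        have h7 : f0 f = MvPolynomial.eval (crd w₀ t₀ m') f := rfl
        rw [h5, h6]
        exact ⟨rfl, h3.trans h4.symm⟩
      · have hw' : ∃ u : ℤ, (w : ℤ) = 1 + (m.factorial : ℤ) * u := by
          have h3 : (m.factorial : ℤ) ∣ (N : ℤ) := by exact_mod_cast hMN
          have h4 := (hwN.of_dvd h3)
          have h5 : w₀ ≡ 1 [ZMOD (m.factorial : ℤ)] := by
            rw [hw₀]; exact Int.modEq_add_fac_self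
          have h6 := (h4.trans h5).symm.dvd
          obtain ⟨u, hu⟩ := h6
          exact ⟨u, by linear_combination hu⟩
        obtain ⟨u, hu⟩ := hw'
        rw [hu, h0 u, h0 u]
        exact ⟨rfl, Int.ModEq.refl _⟩

end Pool.Agent.H88.BQ
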